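import Pool.Agent.X130.VT.Facets
import Pool.Agent.Y369.SJ.Cap

/-!
Cylindrical capacity against Gromov width for convex domains with a complex symmetry.
-/

set_option autoImplicit false

open Set Filter Topology MeasureTheory
open scoped Matrix Real ENNReal

namespace Pool.Agent.X130.SJ

open Pool.Agent.TH845.Vit Pool.Agent.X315.Vit Pool.Agent.Y52.SJ

variable {n : ℕ}

/-- Bodies invariant under the multiplication by `exp (π i / M)`, `M ≥ 2`, in terms of the
smallest width. -/
theorem rot_width (hn : 0 < n) {K : Set (Ph n)} {a : Ph n} (h : CB (tr K a))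
    {M : ℕ} (hM : 2 ≤ M) (hrot : ∀ z ∈ tr K a, rot (π / M) z ∈ tr K a) :
    ∃ ρ : ℝ, 0 < ρ ∧ (∀ z : Ph n, pr z z ≤ ρ ^ 2 → z ∈ tr K a) ∧
      ∀ r : ℝ, 0 < r → 2 * M * Real.tan (π / (2 * M)) * ρ ^ 2 < π * r ^ 2 → InCyl K r := by
  obtain ⟨u, ρ, hu1, hρ, hw, hb⟩ := exists_width hn h
  refine ⟨ρ, hρ, hb, fun r hr h2 => ?_⟩
  have hM0 : (0 : ℝ) < M := by
    have : 0 < M := by omega
    exact_mod_cast this
  have hM2 : (2 : ℝ) ≤ M := by exact_mod_cast hM
  have hpi := Real.pi_pos
  have hint := integral_prof M hM hρ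
  have huw : om u (J u) = 1 := by
    rw [← pr_J, pr_J_J, hu1]
  have hall : ∀ k : ℕ, k ≤ M → ∀ z ∈ tr K a,
      |Real.cos (π * k / M) * pr u z + Real.sin (π * k / M) * pr (J u) z| ≤ ρ := by
    intro k hk' z hz
    rw [← pr_rot_left, pr_rot_adj]
    have e : rot (-(π * k / M)) z = -rot (((M - k : ℕ) : ℝ) * (π / M)) z := by
      rw [← rot_pi, rot_rot]
      have : -(π * k / M) = -(2 * π) + (π + ((M - k : ℕ) : ℝ) * (π / M)) := by
        rw [Nat.cast_sub hk']
        field_simp
        ring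
      rw [this]
      unfold rot
      rw [show -(2 * π) + (π + ((M - k : ℕ) : ℝ) * (π / M)) =
        (π + ((M - k : ℕ) : ℝ) * (π / M)) - 2 * π by ring, Real.cos_sub_two_pi,
        Real.sin_sub_two_pi]
    rw [e, pr_neg_right, abs_neg]
    exact hw _ (rot_mem hrot _ hz)
  refine inCyl_profile ⟨0, hn⟩ (a := a) (u := u) (w := J u) hr hρ (prof_cont M hM ρ)
    (prof_nonneg M ρ) ?_ huw ?_ ?_
  · refine lt_of_le_of_lt hint ?_
    linarith
  · intro z hz
    exact hw _ ⟨z, hz, rfl⟩
  · intro z hz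
    have hz' : z - a ∈ tr K a := ⟨z, hz, rfl⟩
    refine le_prof hM fun j hj => ?_
    have hs := sin_pos' j hj
    have e1 : π * ((j + 1 : ℕ) : ℝ) / M = π * (j + 1) / M := by push_cast; rfl
    have e2 : π * ((M - (j + 1) : ℕ) : ℝ) / M = π - π * (j + 1) / M := by
      rw [Nat.cast_sub (by omega)]
      push_cast
      field_simp
    have h3 := hall (j + 1) (by omega) _ hz'
    have h4 := hall (M - (j + 1)) (by omega) _ hz'
    rw [e1] at h3
    rw [e2, Real.cos_pi_sub, Real.sin_pi_sub] at h4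
    have h5 := abs_le.1 h3
    have h6 := abs_le.1 h4
    rcases abs_cases (pr (J u) (z - a)) with ⟨h7, -⟩ | ⟨h7, -⟩
    · rw [h7]
      nlinarith [h6.2]
    · rw [h7]
      nlinarith [h5.1]

/-- a permutation of the coordinate planes -/
noncomputable def perm (σ : Equiv.Perm (Fin n)) : Ph n →L[ℝ] Ph n :=
  LinearMap.toContinuousLinearMap
    { toFun := fun z => (fun i => z.1 (σ i), fun i => z.2 (σ i))
      map_add' := fun _ _ => rfl
      map_smul' := fun _ _ => rfl }

lemma perm_apply (σ : Equiv.Perm (Fin n)) (z : Ph n) :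
    perm σ z = (fun i => z.1 (σ i), fun i => z.2 (σ i)) := rfl

lemma perm_inj (σ : Equiv.Perm (Fin n)) : Function.Injective (perm σ) := by
  intro x y hxy
  rw [perm_apply, perm_apply, Prod.mk.injEq] at hxy
  refine Prod.ext (funext fun i => ?_) (funext fun i => ?_)
  · have := congrFun hxy.1 (σ.symm i)
    simpa using this
  · have := congrFun hxy.2 (σ.symm i)
    simpa using this

lemma perm_std (σ : Equiv.Perm (Fin n)) (u v : Ph n) : std (perm σ u) (perm σ v) = std u v := by
  unfold std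
  rw [perm_apply, perm_apply]
  exact Equiv.sum_comp σ fun i => u.1 i * v.2 i - u.2 i * v.1 i

theorem cyl_of_inCyl {K : Set (Ph (n + 1))} {r : ℝ} (hr : 0 < r) (h : InCyl (closure K) r) :
    cylCapacity K ≤ ENNReal.ofReal (π * r ^ 2) := by
  obtain ⟨U, hU, hKU, φ, ⟨hs, hinj, hsym⟩, i, hi⟩ := h
  have hK : K ⊆ U := subset_closure.trans hKU
  refine iInf₂_le_of_le r ⟨hr, perm (Equiv.swap i 0) ∘ φ, ?_, ?_, ?_, ?_⟩ le_rfl
  · exact (perm (Equiv.swap i 0)).contDiff.comp_contDiffOn (hs.mono hK)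
  · exact (perm_inj _).comp_injOn (hinj.mono hK)
  · intro z hz
    show (perm (Equiv.swap i 0) (φ z)).1 0 ^ 2 + (perm (Equiv.swap i 0) (φ z)).2 0 ^ 2 < r ^ 2
    rw [perm_apply]
    simp only [Equiv.swap_apply_right]
    exact hi z (subset_closure hz)
  · intro z hz u v
    have hd : DifferentiableAt ℝ φ z :=
      (hs.contDiffAt (hU.mem_nhds (hK hz))).differentiableAt (by simp)
    have hf : fderiv ℝ (perm (Equiv.swap i 0) ∘ φ) z = (perm (Equiv.swap i 0)).comp (fderiv ℝ φ z) :=
      ((perm (Equiv.swap i 0)).hasFDerivAt.comp z hd.hasFDerivAt).fderiv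
    rw [hf, ContinuousLinearMap.comp_apply, ContinuousLinearMap.comp_apply, perm_std]
    exact hsym z (hK hz) u v

theorem cyl_le {K : Set (Ph (n + 1))} {c : ℝ} (hc : 0 ≤ c)
    (h : ∀ r : ℝ, 0 < r → c < π * r ^ 2 → InCyl (closure K) r) :
    cylCapacity K ≤ ENNReal.ofReal c := by
  refine ENNReal.le_of_forall_pos_le_add fun ε hε _ => ?_
  have hε' : (0 : ℝ) < ε := hε
  have hpi := Real.pi_pos
  have hpos : 0 < (c + ε) / π := by positivity
  have e : π * Real.sqrt ((c + ε) / π) ^ 2 = c + ε := by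
    rw [Real.sq_sqrt hpos.le]
    field_simp
  have h1 := cyl_of_inCyl (K := K) (Real.sqrt_pos.2 hpos)
    (h _ (Real.sqrt_pos.2 hpos) (by rw [e]; linarith))
  rw [e, ENNReal.ofReal_add hc hε'.le, ENNReal.ofReal_coe_nnreal] at h1
  exact h1

theorem gromov_ge {K : Set (Ph (n + 1))} (hKo : IsOpen K) (hKc : Convex ℝ K) (hKn : K.Nonempty)
    {a : Ph (n + 1)} {ρ : ℝ} (hρ : 0 < ρ)
    (hb : ∀ z : Ph (n + 1), pr z z ≤ ρ ^ 2 → z ∈ tr (closure K) a) :
    ENNReal.ofReal (π * ρ ^ 2) ≤ gromovWidth K := by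
  refine (Pool.Agent.Y369.SJ.main n K).1 (ρ • ContinuousLinearMap.id ℝ _) a (ρ ^ 2) (by positivity)
    ?_ ?_
  · intro x y
    show std (ρ • x) (ρ • y) = ρ ^ 2 * std x y
    exact Pool.Agent.Y369.SJ.std_smul ρ x y
  · intro x hx
    show a + ρ • x ∈ K
    have hint : interior (closure K) = K := by
      rw [hKc.interior_closure_eq_interior_of_nonempty_interior (by rwa [hKo.interior_eq]),
        hKo.interior_eq]
    rw [← hint]
    have hopen : IsOpen {z : Ph (n + 1) | pr (z - a) (z - a) < ρ ^ 2} := by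
      refine isOpen_lt ?_ continuous_const
      exact pr_cont.comp ((continuous_id.sub continuous_const).prodMk
        (continuous_id.sub continuous_const))
    refine interior_maximal ?_ hopen ?_
    · intro z hz
      obtain ⟨y, hy, hyz⟩ := hb (z - a) (le_of_lt hz)
      have hyz' : y - a = z - a := hyz
      have : y = z := by
        have := congrArg (fun w => w + a) hyz'
        simpa using this
      rwa [← this]
    · show pr (a + ρ • x - a) (a + ρ • x - a) < ρ ^ 2
      rw [add_sub_cancel_left, pr_smul_left, pr_smul_right]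
      have hx1 : pr x x < 1 := by
        have h1 : ∑ i, (x.1 i ^ 2 + x.2 i ^ 2) < 1 ^ 2 := hx
        have e : pr x x = ∑ i, (x.1 i ^ 2 + x.2 i ^ 2) := by
          unfold pr
          exact Finset.sum_congr rfl fun i _ => by ring
        rw [e]
        linarith
      nlinarith [mul_pos hρ hρ]

/-- from the two bounds to the comparison -/
theorem compare {K : Set (Ph (n + 1))} (hKo : IsOpen K) (hKc : Convex ℝ K) (hKn : K.Nonempty)
    {a : Ph (n + 1)} {ρ c : ℝ} (hρ : 0 < ρ) (hc : 0 ≤ c)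
    (hb : ∀ z : Ph (n + 1), pr z z ≤ ρ ^ 2 → z ∈ tr (closure K) a)
    (h : ∀ r : ℝ, 0 < r → π * c * ρ ^ 2 < π * r ^ 2 → InCyl (closure K) r) :
    cylCapacity K ≤ ENNReal.ofReal c * gromovWidth K := by
  have h1 : cylCapacity K ≤ ENNReal.ofReal (π * c * ρ ^ 2) := cyl_le (by positivity) h
  have h2 := gromov_ge hKo hKc hKn hρ hb
  calc cylCapacity K ≤ ENNReal.ofReal (π * c * ρ ^ 2) := h1
    _ = ENNReal.ofReal c * ENNReal.ofReal (π * ρ ^ 2) := by
        rw [← ENNReal.ofReal_mul hc]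
        congr 1
        ring
    _ ≤ _ := by gcongr

lemma cb_closure {K : Set (Ph n)} (hKo : IsOpen K) (hKc : Convex ℝ K)
    (hKb : Bornology.IsBounded K) (hKn : K.Nonempty) {a : Ph n}
    (hs : ∀ x ∈ K, (2 : ℝ) • a - x ∈ K) : CB (tr (closure K) a) := by
  have himg : tr (closure K) a = (fun x => -a + x) '' closure K := by
    refine image_congr fun x _ => ?_
    abel
  refine ⟨?_, ?_, ?_, ?_⟩
  · exact hKb.isCompact_closure.image (by fun_prop)
  · rw [himg, Set.image_add_left]
    exact hKc.closure.translate_preimage_right _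
  · obtain ⟨y, hy⟩ := hKn
    refine ⟨-a + y, ?_⟩
    rw [himg]
    have h1 : (fun x => -a + x) '' K ⊆ (fun x => -a + x) '' closure K :=
      image_mono subset_closure
    have h2 : IsOpen ((fun x => -a + x) '' K) := by
      rw [Set.image_add_left]
      exact hKo.preimage (by fun_prop)
    exact interior_maximal h1 h2 ⟨y, hy, rfl⟩
  · rintro _ ⟨x, hx, rfl⟩
    have h3 : MapsTo (fun x : Ph n => (2 : ℝ) • a - x) (closure K) (closure K) :=
      MapsTo.closure (fun x hx => hs x hx) (by fun_prop)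
    refine ⟨_, h3 hx, ?_⟩
    show (2 : ℝ) • a - x - a = -(x - a)
    module

theorem turns {K : Set (Ph (n + 1))} (hKo : IsOpen K) (hKc : Convex ℝ K)
    (hKb : Bornology.IsBounded K) (hKn : K.Nonempty) (a : Ph (n + 1))
    (hs : ∀ x ∈ K, (2 : ℝ) • a - x ∈ K) {d : ℝ} (hd : 0 < d)
    (hi : ∀ x ∈ K, a + d⁻¹ • J (x - a) ∈ K) :
    cylCapacity K ≤ ENNReal.ofReal (4 * d / π) * gromovWidth K := by
  have hCB := cb_closure hKo hKc hKb hKn hs
  have hJc : Continuous fun x : Ph (n + 1) => a + d⁻¹ • J (x - a) := by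
    unfold J
    fun_prop
  have hJ : ∀ z ∈ tr (closure K) a, ∃ y ∈ tr (closure K) a, J z = d • y := by
    rintro _ ⟨x, hx, rfl⟩
    have h3 : MapsTo (fun x : Ph (n + 1) => a + d⁻¹ • J (x - a)) (closure K) (closure K) :=
      MapsTo.closure (fun x hx => hi x hx) hJc
    refine ⟨d⁻¹ • J (x - a), ⟨_, h3 hx, ?_⟩, ?_⟩
    · show a + d⁻¹ • J (x - a) - a = _
      abel
    · show J (x - a) = d • d⁻¹ • J (x - a)
      rw [smul_smul, mul_inv_cancel₀ hd.ne', one_smul]
  obtain ⟨ρ, hρ, hb, hcyl⟩ := VT.width_bound (Nat.succ_pos n) hCB hd hJ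
  have hpi := Real.pi_pos
  refine compare hKo hKc hKn hρ (by positivity) hb fun r hr hlt => hcyl r hr ?_
  have e : π * (4 * d / π) * ρ ^ 2 = 4 * d * ρ ^ 2 := by field_simp
  rwa [e] at hlt

theorem rotates {K : Set (Ph (n + 1))} (hKo : IsOpen K) (hKc : Convex ℝ K)
    (hKb : Bornology.IsBounded K) (hKn : K.Nonempty) (a : Ph (n + 1)) {M : ℕ} (hM : 2 ≤ M)
    (hi : ∀ x ∈ K, a + rot (π / M) (x - a) ∈ K) :
    cylCapacity K ≤ ENNReal.ofReal (2 * M / π * Real.tan (π / (2 * M))) * gromovWidth K := by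
  have hM0 : (0 : ℝ) < M := by
    have : 0 < M := by omega
    exact_mod_cast this
  have hpi := Real.pi_pos
  have hk : ∀ k : ℕ, ∀ x ∈ K, a + rot (k * (π / M)) (x - a) ∈ K := by
    intro k
    induction k with
    | zero =>
      intro x hx
      have : rot (((0 : ℕ) : ℝ) * (π / M)) (x - a) = x - a := by
        unfold rot
        simp
      rw [this]
      simpa using hx
    | succ k ih =>
      intro x hx
      have h1 := hi _ (ih x hx)
      rw [add_sub_cancel_left, rot_rot] at h1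
      have e : π / M + k * (π / M) = ((k + 1 : ℕ) : ℝ) * (π / M) := by push_cast; ring
      rwa [e] at h1
  have hs : ∀ x ∈ K, (2 : ℝ) • a - x ∈ K := by
    intro x hx
    have h1 := hk M x hx
    have e : (M : ℝ) * (π / M) = π := by field_simp
    rw [e, rot_pi] at h1
    have e2 : (2 : ℝ) • a - x = a + -(x - a) := by module
    rwa [e2]
  have hCB := cb_closure hKo hKc hKb hKn hs
  have hrc : Continuous fun x : Ph (n + 1) => a + rot (π / M) (x - a) := by
    unfold rot J
    fun_prop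
  have hrot : ∀ z ∈ tr (closure K) a, rot (π / M) z ∈ tr (closure K) a := by
    rintro _ ⟨x, hx, rfl⟩
    have h3 : MapsTo (fun x : Ph (n + 1) => a + rot (π / M) (x - a)) (closure K) (closure K) :=
      MapsTo.closure (fun x hx => hi x hx) hrc
    refine ⟨_, h3 hx, ?_⟩
    show a + rot (π / M) (x - a) - a = rot (π / M) (x - a)
    abel
  obtain ⟨ρ, hρ, hb, hcyl⟩ := rot_width (Nat.succ_pos n) hCB hM hrot
  have hM2 : (2 : ℝ) ≤ M := by exact_mod_cast hM
  have htan : 0 < Real.tan (π / (2 * M)) := by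
    refine Real.tan_pos_of_pos_of_lt_pi_div_two (by positivity) ?_
    apply div_lt_div_of_pos_left Real.pi_pos (by norm_num)
    linarith
  refine compare hKo hKc hKn hρ (by positivity) hb fun r hr hlt => hcyl r hr ?_
  have e : π * (2 * M / π * Real.tan (π / (2 * M))) * ρ ^ 2 =
      2 * M * Real.tan (π / (2 * M)) * ρ ^ 2 := by field_simp
  rwa [e] at hlt

end Pool.Agent.X130.SJ
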