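import Pool.Agent.TH582.Vit.Sgn
import Pool.Agent.Y52.SJ.Stm2

/-!
# The rounding statement `S_RND` of project SJ

Signs of `⟪x i, g⟫` and `⟪y j, g⟫` for a uniform random point `g` of the unit ball.
-/

set_option autoImplicit false

noncomputable section

open MeasureTheory
open scoped RealInnerProductSpace BigOperators

namespace Pool.Agent.X130.SJ

open Pool.Agent.TH582.Vit Pool.Agent.TH582.Vit.Sgn

/-- append two zero coordinates -/
def pad {d : ℕ} (v : EuclideanSpace ℝ (Fin d)) : EuclideanSpace ℝ (Fin d ⊕ Fin 2) :=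
  WithLp.toLp 2 (Sum.elim v.ofLp 0)

lemma inner_pad {d : ℕ} (v w : EuclideanSpace ℝ (Fin d)) : ⟪pad v, pad w⟫ = ⟪v, w⟫ := by
  simp [pad, PiLp.inner_apply, Fintype.sum_sum_type]

/-- the sign with value `1` at `0` -/
def sg (r : ℝ) : ℝ := if 0 ≤ r then 1 else -1

lemma abs_sg (r : ℝ) : |sg r| = 1 := by
  unfold sg; split_ifs <;> simp

lemma sign_eq_sg {r : ℝ} (h : r ≠ 0) : Real.sign r = sg r := by
  unfold sg
  rcases lt_or_gt_of_ne h with h1 | h1
  · rw [Real.sign_of_neg h1, if_neg (not_le.2 h1)]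
  · rw [Real.sign_of_pos h1, if_pos h1.le]

lemma mul_arcsin {t : ℝ} (h1 : -1 ≤ t) (h2 : t ≤ 1) : t ^ 2 ≤ t * Real.arcsin t := by
  have key : ∀ s : ℝ, 0 ≤ s → s ≤ 1 → s ≤ Real.arcsin s := by
    intro s hs0 hs1
    have h3 : Real.sin (Real.arcsin s) = s := Real.sin_arcsin (by linarith) hs1
    have h4 := Real.sin_le (Real.arcsin_nonneg.2 hs0)
    rwa [h3] at h4
  rcases le_total 0 t with h | h
  · have := mul_le_mul_of_nonneg_left (key t h h2) h
    nlinarith
  · have h5 := key (-t) (by linarith) (by linarith)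
    rw [Real.arcsin_neg] at h5
    nlinarith

variable {ι : Type} [Fintype ι]

lemma B_pos : 0 < V ι := by
  unfold V B
  exact ENNReal.toReal_pos (Metric.measure_ball_pos volume _ one_pos).ne' measure_ball_lt_top.ne

theorem round (hcard : 2 ≤ Fintype.card ι) (m : ℕ) (w : Fin m → Fin m → ℝ)
    (x y : Fin m → EuclideanSpace ℝ ι) (hw : ∀ i j, 0 ≤ w i j) (hx : ∀ i, ‖x i‖ = 1)
    (hy : ∀ i, ‖y i‖ = 1) :
    ∃ ε δ : Fin m → ℝ, (∀ i, |ε i| = 1) ∧ (∀ i, |δ i| = 1) ∧
    2 / Real.pi * ∑ i, ∑ j, w i j * (inner ℝ (x i) (y j)) ^ 2 ≤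
      ∑ i, ∑ j, w i j * inner ℝ (x i) (y j) * ε i * δ j := by
  have hx0 : ∀ i, x i ≠ 0 := fun i h => by have := hx i; rw [h, norm_zero] at this; norm_num at this
  have hy0 : ∀ i, y i ≠ 0 := fun i h => by have := hy i; rw [h, norm_zero] at this; norm_num at this
  set F : EuclideanSpace ℝ ι → ℝ := fun g =>
    ∑ i, ∑ j, w i j * inner ℝ (x i) (y j) * s2 (x i) (y j) g with hF
  set G : EuclideanSpace ℝ ι → ℝ := fun g =>
    ∑ i, ∑ j, w i j * inner ℝ (x i) (y j) * sg ⟪x i, g⟫ * sg ⟪y j, g⟫ with hG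
  have hFi : IntegrableOn F (B ι) := by
    refine integrable_finsetSum _ fun i _ => integrable_finsetSum _ fun j _ => ?_
    exact (s2_int (x i) (y j)).const_mul _
  have hae : F =ᵐ[volume.restrict (B ι)] G := by
    have h1 : ∀ᵐ g ∂(volume.restrict (B ι)), (∀ i, ⟪x i, g⟫ ≠ 0) ∧ ∀ i, ⟪y i, g⟫ ≠ 0 := by
      exact (ae_all_iff.2 fun i => ae_ne (hx0 i)).and (ae_all_iff.2 fun i => ae_ne (hy0 i))
    filter_upwards [h1] with g hg
    simp only [hF, hG]
    refine Finset.sum_congr rfl fun i _ => Finset.sum_congr rfl fun j _ => ?_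
    unfold s2
    rw [sign_eq_sg (hg.1 i), sign_eq_sg (hg.2 j)]
    ring
  have hGi : IntegrableOn G (B ι) := hFi.congr hae
  have hint : ∫ g in B ι, G g = V ι * ∑ i, ∑ j, w i j * inner ℝ (x i) (y j) *
      (2 / Real.pi * Real.arcsin (inner ℝ (x i) (y j))) := by
    rw [← integral_congr_ae hae]
    simp only [hF]
    rw [integral_finsetSum _ fun i _ => integrable_finsetSum _ fun j _ =>
      (s2_int (x i) (y j)).const_mul _, Finset.mul_sum]
    refine Finset.sum_congr rfl fun i _ => ?_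
    rw [integral_finsetSum _ fun j _ => (s2_int (x i) (y j)).const_mul _, Finset.mul_sum]
    refine Finset.sum_congr rfl fun j _ => ?_
    rw [integral_const_mul]
    have h2 : ∫ g in B ι, s2 (x i) (y j) g = V ι *
        (1 - 2 / Real.pi * InnerProductGeometry.angle (x i) (y j)) :=
      sgn ι hcard (x i) (y j) (hx0 i) (hy0 j)
    rw [h2]
    have h3 : InnerProductGeometry.angle (x i) (y j) = Real.arccos (inner ℝ (x i) (y j)) := by
      unfold InnerProductGeometry.angle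
      rw [hx i, hy j, one_mul, div_one]
    rw [h3, Real.arccos_eq_pi_div_two_sub_arcsin]
    have hpi := Real.pi_pos
    field_simp
    ring
  have hvol : volume (B ι) ≠ 0 := (Metric.measure_ball_pos volume _ one_pos).ne'
  obtain ⟨g, -, hg⟩ := exists_setAverage_le hvol B_fin hGi
  refine ⟨fun i => sg ⟪x i, g⟫, fun j => sg ⟪y j, g⟫, fun i => abs_sg _, fun j => abs_sg _, ?_⟩
  refine le_trans ?_ hg
  rw [setAverage_eq, hint, smul_eq_mul]
  have hV : (volume.real (B ι))⁻¹ * (V ι * ∑ i, ∑ j, w i j * inner ℝ (x i) (y j) *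
      (2 / Real.pi * Real.arcsin (inner ℝ (x i) (y j)))) = ∑ i, ∑ j, w i j * inner ℝ (x i) (y j) *
      (2 / Real.pi * Real.arcsin (inner ℝ (x i) (y j))) := by
    have : volume.real (B ι) = V ι := rfl
    rw [this, ← mul_assoc, inv_mul_cancel₀ B_pos.ne', one_mul]
  rw [hV, Finset.mul_sum]
  refine Finset.sum_le_sum fun i _ => ?_
  rw [Finset.mul_sum]
  refine Finset.sum_le_sum fun j _ => ?_
  have hb : |(inner ℝ (x i) (y j) : ℝ)| ≤ 1 := by
    have := abs_real_inner_le_norm (x i) (y j)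
    rwa [hx i, hy j, one_mul] at this
  have h4 := mul_arcsin (abs_le.1 hb).1 (abs_le.1 hb).2
  have h5 := mul_le_mul_of_nonneg_left h4 (hw i j)
  have hpi : (0 : ℝ) ≤ 2 / Real.pi := by positivity
  have h6 := mul_le_mul_of_nonneg_left h5 hpi
  calc 2 / Real.pi * (w i j * inner ℝ (x i) (y j) ^ 2) ≤ _ := h6
    _ = _ := by ring

theorem rnd : Pool.Agent.Y52.SJ.S_RND := by
  intro V _ _ _ m w x y hw hx hy
  let b := stdOrthonormalBasis ℝ V
  have hin : ∀ u v : V, ⟪pad (b.repr u), pad (b.repr v)⟫ = ⟪u, v⟫ := by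
    intro u v
    rw [inner_pad, LinearIsometryEquiv.inner_map_map]
  have hn : ∀ u : V, ‖u‖ = 1 → ‖pad (b.repr u)‖ = 1 := by
    intro u hu
    have h1 : ‖pad (b.repr u)‖ ^ 2 = 1 := by
      rw [← real_inner_self_eq_norm_sq, hin, real_inner_self_eq_norm_sq, hu]; norm_num
    nlinarith [norm_nonneg (pad (b.repr u))]
  obtain ⟨ε, δ, h1, h2, h3⟩ := round (ι := Fin (Module.finrank ℝ V) ⊕ Fin 2) (by simp) m w
    (fun i => pad (b.repr (x i))) (fun i => pad (b.repr (y i))) hw (fun i => hn _ (hx i))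
    (fun i => hn _ (hy i))
  simp only [hin] at h3
  exact ⟨ε, δ, h1, h2, h3⟩

end Pool.Agent.X130.SJ
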